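import Mathlib

set_option autoImplicit false

namespace Pool.Agent.P.MP_81db1e_al

open Polynomial

/-- the plain embedding of `k[X] × k[X]` into `k(X) × k(X)`. -/
noncomputable def phiOne (k : Type) [Field k] :
    (k[X] × k[X]) →ₐ[k] (RatFunc k × RatFunc k) :=
  AlgHom.prodMap (IsScalarTower.toAlgHom k k[X] (RatFunc k))
    (IsScalarTower.toAlgHom k k[X] (RatFunc k))

/-- the embedding twisted by the substitution `X ↦ X + 1` in the second factor. -/
noncomputable def phiTwo (k : Type) [Field k] :
    (k[X] × k[X]) →ₐ[k] (RatFunc k × RatFunc k) :=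
  AlgHom.prodMap (IsScalarTower.toAlgHom k k[X] (RatFunc k))
    ((IsScalarTower.toAlgHom k k[X] (RatFunc k)).comp (Polynomial.taylorAlgHom (1 : k)))

lemma inj_aux (k : Type) [Field k] :
    Function.Injective (IsScalarTower.toAlgHom k k[X] (RatFunc k)) :=
  IsFractionRing.injective k[X] (RatFunc k)

lemma phiOne_inj (k : Type) [Field k] : Function.Injective (phiOne k) := by
  rintro ⟨a, b⟩ ⟨c, d⟩ h
  exact Prod.ext (inj_aux k (congrArg Prod.fst h)) (inj_aux k (congrArg Prod.snd h))

lemma phiTwo_inj (k : Type) [Field k] : Function.Injective (phiTwo k) := by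
  rintro ⟨a, b⟩ ⟨c, d⟩ h
  refine Prod.ext (inj_aux k (congrArg Prod.fst h)) ?_
  have h2 := inj_aux k (congrArg Prod.snd h)
  exact Polynomial.taylor_injective (1 : k) h2

lemma dep_of_smul {F A : Type} [Field F] [AddCommGroup A] [Module F A] (a b : A) (c : F)
    (h : a = c • b) : ¬ LinearIndependent F ![a, b] := by
  rw [LinearIndependent.pair_iff]
  intro H
  have := (H 1 (-c) (by rw [h]; simp)).1
  exact one_ne_zero this

lemma smul_of_dep {F A : Type} [Field F] [AddCommGroup A] [Module F A] (a b : A) (hb : b ≠ 0)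
    (h : ¬ LinearIndependent F ![a, b]) : ∃ c : F, a = c • b := by
  rw [LinearIndependent.pair_iff] at h
  push Not at h
  obtain ⟨s, t, hst, hne⟩ := h
  by_cases hs : s = 0
  · subst hs
    simp only [zero_smul, zero_add, smul_eq_zero] at hst
    rcases hst with h0 | h0
    · exact absurd h0 (hne rfl)
    · exact absurd h0 hb
  · refine ⟨-(s⁻¹ * t), ?_⟩
    have h1 : s • a = -(t • b) := eq_neg_of_add_eq_zero_left hst
    have h2 : a = s⁻¹ • (s • a) := by rw [smul_smul, inv_mul_cancel₀ hs, one_smul]
    rw [h2, h1, smul_neg, smul_smul, neg_smul]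

lemma dep_one (k : Type) [Field k] :
    ¬ LinearIndependent (RatFunc k) ![phiOne k (X, X), phiOne k 1] := by
  apply dep_of_smul _ _ (RatFunc.X : RatFunc k)
  rw [map_one]
  ext <;> simp [phiOne, AlgHom.prodMap]

lemma dep_two (k : Type) [Field k] :
    ¬ LinearIndependent (RatFunc k) ![phiTwo k (X + 1, X), phiTwo k 1] := by
  apply dep_of_smul _ _ (RatFunc.X + 1 : RatFunc k)
  rw [map_one]
  ext <;> simp [phiTwo, AlgHom.prodMap]

/-- No injective multiplicative additive map to an algebra over a field makes both pairs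
dependent (the map need not preserve the unit). -/
lemma not_both (k : Type) [Field k] {F A : Type} [Field F] [NonUnitalRing A] [Module F A]
    [IsScalarTower F A A] [SMulCommClass F A A]
    (φ : (k[X] × k[X]) →ₙ+* A) (hφ : Function.Injective φ)
    (h1 : ¬ LinearIndependent F ![φ (X, X), φ 1])
    (h2 : ¬ LinearIndependent F ![φ (X + 1, X), φ 1]) : False := by
  have hne : φ 1 ≠ 0 := by
    intro h
    have : (1 : k[X] × k[X]) = 0 := hφ (by rw [h, map_zero])
    exact one_ne_zero this
  obtain ⟨c, hc⟩ := smul_of_dep _ _ hne h1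
  obtain ⟨d, hd⟩ := smul_of_dep _ _ hne h2
  have he : φ (1, 0) = (d - c) • φ 1 := by
    have : ((1, 0) : k[X] × k[X]) = (X + 1, X) - (X, X) := by ext <;> simp
    rw [this, map_sub, hc, hd, sub_smul]
  have hf : φ (0, 1) = (1 - (d - c)) • φ 1 := by
    have : ((0, 1) : k[X] × k[X]) = 1 - (1, 0) := by ext <;> simp
    rw [this, map_sub, he, sub_smul 1, one_smul]
  have h11 : φ 1 * φ 1 = φ 1 := by rw [← map_mul, one_mul]
  have hz : φ (1, 0) * φ (0, 1) = 0 := by
    rw [← map_mul]
    have : ((1, 0) : k[X] × k[X]) * (0, 1) = 0 := by ext <;> simp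
    rw [this, map_zero]
  rw [he, hf, smul_mul_assoc, mul_smul_comm, h11, smul_smul, smul_eq_zero] at hz
  rcases hz with hz | hz
  · rcases mul_eq_zero.mp hz with h0 | h0
    · rw [h0, zero_smul] at he
      have : ((1, 0) : k[X] × k[X]) = 0 := hφ (by rw [he, map_zero])
      exact one_ne_zero (congrArg Prod.fst this)
    · rw [h0, zero_smul] at hf
      have : ((0, 1) : k[X] × k[X]) = 0 := hφ (by rw [hf, map_zero])
      exact one_ne_zero (congrArg Prod.snd this)
  · exact hne hz

lemma comp_pair {R B : Type} (f : R → B) (a b : R) :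
    (fun i => f (![a, b] i)) = ![f a, f b] := by
  funext i
  fin_cases i <;> rfl

lemma has_rep (k : Type) [Field k] :
    ∃ (F : Type) (_ : Field F) (_ : Algebra k F) (A : Type) (_ : Ring A)
      (_ : Algebra F A) (_ : Algebra k A) (_ : IsScalarTower k F A)
      (_ : FiniteDimensional F A) (φ : (k[X] × k[X]) →ₐ[k] A), Function.Injective φ :=
  ⟨RatFunc k, inferInstance, inferInstance, RatFunc k × RatFunc k, inferInstance,
    inferInstance, inferInstance, inferInstance, inferInstance, phiOne k, phiOne_inj k⟩

lemma no_envelope (k : Type) [Field k] :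
    ¬ ∃ (F : Type) (_ : Field F) (_ : Algebra k F) (A : Type) (_ : Ring A)
          (_ : Algebra F A) (_ : Algebra k A) (_ : IsScalarTower k F A)
          (_ : FiniteDimensional F A) (φ : (k[X] × k[X]) →ₐ[k] A),
        Function.Injective φ ∧
        ∀ (F' : Type) [Field F'] [Algebra k F'] (A' : Type) [Ring A'] [Algebra F' A']
          [Algebra k A'] [IsScalarTower k F' A'] [FiniteDimensional F' A']
          (φ' : (k[X] × k[X]) →ₐ[k] A'), Function.Injective φ' →
          ∀ (ι : Type) (r : ι → (k[X] × k[X])),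
            ¬ LinearIndependent F' (fun i => φ' (r i)) →
            ¬ LinearIndependent F (fun i => φ (r i)) := by
  rintro ⟨F, _, _, A, _, _, _, _, _, φ, hφ, hall⟩
  have h1 := hall (RatFunc k) (RatFunc k × RatFunc k) (phiOne k) (phiOne_inj k) (Fin 2)
    ![(X, X), 1] (by rw [comp_pair]; exact dep_one k)
  have h2 := hall (RatFunc k) (RatFunc k × RatFunc k) (phiTwo k) (phiTwo_inj k) (Fin 2)
    ![(X + 1, X), 1] (by rw [comp_pair]; exact dep_two k)
  rw [comp_pair] at h1 h2
  exact not_both k (F := F) (A := A) (φ : (k[X] × k[X]) →ₙ+* A) hφ h1 h2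

lemma pair_inj {R : Type} (a b : R) (h : a ≠ b) : Function.Injective ![a, b] := by
  intro i j hij
  fin_cases i <;> fin_cases j <;> simp_all [eq_comm]

theorem two_sets (k : Type) [Field k] :
    ∃ (R : Type) (_ : CommRing R) (_ : Algebra k R) (_ : Algebra.FiniteType k R)
      (_ : IsReduced R) (u v : Fin 2 → R),
      Function.Injective u ∧ Function.Injective v ∧
      (∃ (F : Type) (_ : Field F) (_ : Algebra k F) (A : Type) (_ : Ring A)
          (_ : Algebra F A) (_ : Algebra k A) (_ : IsScalarTower k F A)
          (_ : FiniteDimensional F A) (φ : R →ₐ[k] A),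
          Function.Injective φ ∧ ¬ LinearIndependent F (fun i => φ (u i))) ∧
      (∃ (F : Type) (_ : Field F) (_ : Algebra k F) (A : Type) (_ : Ring A)
          (_ : Algebra F A) (_ : Algebra k A) (_ : IsScalarTower k F A)
          (_ : FiniteDimensional F A) (φ : R →ₐ[k] A),
          Function.Injective φ ∧ ¬ LinearIndependent F (fun i => φ (v i))) ∧
      ∀ (F : Type) [Field F] (A : Type) [NonUnitalRing A] [Module F A]
          [IsScalarTower F A A] [SMulCommClass F A A] (φ : R →ₙ+* A),
          Function.Injective φ →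
          LinearIndependent F (fun i => φ (u i)) ∨ LinearIndependent F (fun i => φ (v i)) := by
  refine ⟨k[X] × k[X], inferInstance, inferInstance, inferInstance, inferInstance,
    ![(X, X), 1], ![(X + 1, X), 1], pair_inj _ _ ?_, pair_inj _ _ ?_, ?_, ?_, ?_⟩
  · intro h
    have h2 : (X : k[X]) = 1 := congrArg Prod.snd h
    have := congrArg Polynomial.natDegree h2
    simp at this
  · intro h
    have h2 : (X : k[X]) = 1 := congrArg Prod.snd h
    have := congrArg Polynomial.natDegree h2
    simp at this
  · exact ⟨RatFunc k, inferInstance, inferInstance, RatFunc k × RatFunc k, inferInstance,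
      inferInstance, inferInstance, inferInstance, inferInstance, phiOne k, phiOne_inj k,
      by rw [comp_pair]; exact dep_one k⟩
  · exact ⟨RatFunc k, inferInstance, inferInstance, RatFunc k × RatFunc k, inferInstance,
      inferInstance, inferInstance, inferInstance, inferInstance, phiTwo k, phiTwo_inj k,
      by rw [comp_pair]; exact dep_two k⟩
  · intro F _ A _ _ _ _ φ hφ
    by_contra hcon
    push Not at hcon
    obtain ⟨h1, h2⟩ := hcon
    rw [comp_pair] at h1 h2
    exact not_both k φ hφ h1 h2

end Pool.Agent.P.MP_81db1e_al
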