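import Pool.Agent.P.MP_81db1e_al.RelDefs

set_option autoImplicit false

namespace Pool.Agent.P.MP_81db1e_al

variable (k : Type) [Field k]

/-- The quotient map. -/
noncomputable def rq : FreeAlgebra k (Fin 2) →ₐ[k] RelFree k := RingQuot.mkAlgHom k _

noncomputable def rx : RelFree k := rq k (FreeAlgebra.ι k 0)

noncomputable def ry : RelFree k := rq k (FreeAlgebra.ι k 1)

noncomputable def rc : RelFree k := rx k * ry k - ry k * rx k

theorem rq_surj : Function.Surjective (rq k) := RingQuot.mkAlgHom_surjective k _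

variable {k}

theorem rel_central (f g h : RelFree k) : (f * g - g * f) * h = h * (f * g - g * f) := by
  obtain ⟨f, rfl⟩ := rq_surj k f
  obtain ⟨g, rfl⟩ := rq_surj k g
  obtain ⟨h, rfl⟩ := rq_surj k h
  have := RingQuot.mkAlgHom_rel k (s := fun a b : FreeAlgebra k (Fin 2) =>
    ∃ f g h : FreeAlgebra k (Fin 2), a = (f * g - g * f) * h ∧ b = h * (f * g - g * f))
    ⟨f, g, h, rfl, rfl⟩
  simpa only [rq, map_mul, map_sub] using this

theorem rc_comm (h : RelFree k) : rc k * h = h * rc k := rel_central _ _ h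

theorem rc_sq [CharZero k] : rc k * rc k = 0 := by
  have h1 := rel_central (rx k * rx k) (ry k) (ry k)
  have e : rx k * rx k * ry k - ry k * (rx k * rx k) = rx k * rc k + rc k * rx k := by
    unfold rc; simp only [mul_sub, sub_mul, mul_assoc]; abel
  rw [e, rc_comm (rx k)] at h1
  have h2 : rx k * rc k * ry k = rx k * ry k * rc k := by
    rw [mul_assoc, rc_comm, mul_assoc]
  have h3 : (2 : k) • (rc k * rc k) = 0 := by
    have h4 : rc k * rc k = rx k * rc k * ry k - ry k * (rx k * rc k) := by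
      rw [h2]
      calc rc k * rc k = (rx k * ry k - ry k * rx k) * rc k := rfl
        _ = _ := by simp only [sub_mul, mul_assoc]
    rw [two_smul, h4]
    calc _ = (rx k * rc k + rx k * rc k) * ry k - ry k * (rx k * rc k + rx k * rc k) := by
          noncomm_ring
      _ = 0 := by rw [h1, sub_self]
  exact (smul_eq_zero.1 h3).resolve_left two_ne_zero

theorem ry_mul_pow (i : ℕ) :
    ry k * rx k ^ (i + 1) = rx k ^ (i + 1) * ry k - ((i + 1 : ℕ) : k) • (rx k ^ i * rc k) := by
  have h0 : ry k * rx k = rx k * ry k - rc k := by unfold rc; abel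
  induction i with
  | zero => simp [h0]
  | succ i ih =>
    rw [pow_succ (rx k) (i + 1), ← mul_assoc, ih, sub_mul, smul_mul_assoc, mul_assoc, h0,
      mul_assoc (rx k ^ i), rc_comm, ← mul_assoc (rx k ^ i), ← pow_succ, mul_sub, ← mul_assoc]
    push_cast
    module

variable (k) in
/-- Ordered monomials. -/
noncomputable def mon (p : ℕ × ℕ) : RelFree k := rx k ^ p.1 * ry k ^ p.2

variable (k) in
noncomputable def ordSpan : Submodule k (RelFree k) := Submodule.span k (Set.range (mon k))

theorem mon_mem (i j : ℕ) : rx k ^ i * ry k ^ j ∈ ordSpan k :=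
  Submodule.subset_span ⟨(i, j), rfl⟩

theorem rx_mul_mem {s : RelFree k} (hs : s ∈ ordSpan k) : rx k * s ∈ ordSpan k := by
  induction hs using Submodule.span_induction with
  | mem s hs =>
    obtain ⟨⟨i, j⟩, rfl⟩ := hs
    have := mon_mem (k := k) (i + 1) j
    rwa [pow_succ', mul_assoc] at this
  | zero => simp
  | add a b _ _ ha hb => rw [mul_add]; exact add_mem ha hb
  | smul t a _ ha => rw [mul_smul_comm]; exact Submodule.smul_mem _ t ha

theorem ry_mul_mem {s : RelFree k} (hs : s ∈ ordSpan k) :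
    ∃ s1 ∈ ordSpan k, ∃ s2 ∈ ordSpan k, ry k * s = s1 + s2 * rc k := by
  induction hs using Submodule.span_induction with
  | mem s hs =>
    obtain ⟨⟨i, j⟩, rfl⟩ := hs
    cases i with
    | zero =>
      refine ⟨_, mon_mem 0 (j + 1), 0, zero_mem _, ?_⟩
      simp [mon, pow_succ']
    | succ i =>
      refine ⟨_, mon_mem (i + 1) (j + 1), _,
        Submodule.smul_mem _ (-((i + 1 : ℕ) : k)) (mon_mem i j), ?_⟩
      simp only [mon]
      rw [← mul_assoc, ry_mul_pow, sub_mul, smul_mul_assoc, smul_mul_assoc, mul_assoc,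
        ← pow_succ', mul_assoc (rx k ^ i), rc_comm, ← mul_assoc (rx k ^ i), neg_smul,
        sub_eq_add_neg]
  | zero => exact ⟨0, zero_mem _, 0, zero_mem _, by simp⟩
  | add a b _ _ ha hb =>
    obtain ⟨a1, h1, a2, h2, e⟩ := ha
    obtain ⟨b1, h3, b2, h4, e'⟩ := hb
    exact ⟨_, add_mem h1 h3, _, add_mem h2 h4, by rw [mul_add, e, e', add_mul]; abel⟩
  | smul t a _ ha =>
    obtain ⟨a1, h1, a2, h2, e⟩ := ha
    exact ⟨_, Submodule.smul_mem _ t h1, _, Submodule.smul_mem _ t h2, by
      rw [mul_smul_comm, e, smul_add, smul_mul_assoc]⟩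

theorem normal_form [CharZero k] (r : RelFree k) :
    ∃ s1 ∈ ordSpan k, ∃ s2 ∈ ordSpan k, r = s1 + s2 * rc k := by
  have key : ∀ a : FreeAlgebra k (Fin 2), ∀ s1 ∈ ordSpan k, ∀ s2 ∈ ordSpan k,
      ∃ t1 ∈ ordSpan k, ∃ t2 ∈ ordSpan k, rq k a * (s1 + s2 * rc k) = t1 + t2 * rc k := by
    intro a
    induction a using FreeAlgebra.induction with
    | grade0 t =>
      intro s1 h1 s2 h2
      exact ⟨_, Submodule.smul_mem _ t h1, _, Submodule.smul_mem _ t h2, by
        rw [AlgHom.commutes, ← Algebra.smul_def, smul_add, smul_mul_assoc]⟩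
    | grade1 i =>
      intro s1 h1 s2 h2
      fin_cases i
      · exact ⟨_, rx_mul_mem h1, _, rx_mul_mem h2, by
          change rx k * _ = _
          rw [mul_add, mul_assoc]⟩
      · obtain ⟨a1, h3, a2, h4, e⟩ := ry_mul_mem h1
        obtain ⟨b1, h5, b2, -, e'⟩ := ry_mul_mem h2
        refine ⟨_, h3, _, add_mem h4 h5, ?_⟩
        change ry k * _ = _
        rw [mul_add, ← mul_assoc, e, e', add_mul, add_mul, mul_assoc b2, rc_sq, mul_zero]
        abel
    | mul a b ha hb =>
      intro s1 h1 s2 h2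
      obtain ⟨t1, h3, t2, h4, e⟩ := hb s1 h1 s2 h2
      rw [map_mul, mul_assoc, e]
      exact ha t1 h3 t2 h4
    | add a b ha hb =>
      intro s1 h1 s2 h2
      obtain ⟨a1, h3, a2, h4, e⟩ := ha s1 h1 s2 h2
      obtain ⟨b1, h5, b2, h6, e'⟩ := hb s1 h1 s2 h2
      exact ⟨_, add_mem h3 h5, _, add_mem h4 h6, by
        rw [map_add, add_mul, e, e', add_mul]; abel⟩
  obtain ⟨a, rfl⟩ := rq_surj k r
  have h1 : (1 : RelFree k) ∈ ordSpan k := by simpa using mon_mem (k := k) 0 0
  simpa using key a 1 h1 0 (zero_mem _)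

variable (k) in
/-- The field of rational functions in two variables. -/
abbrev FF : Type := FractionRing (MvPolynomial (Fin 2) k)

variable (k) in
noncomputable def gen (i : Fin 2) : FF k :=
  algebraMap (MvPolynomial (Fin 2) k) (FF k) (MvPolynomial.X i)

theorem gen_indep : LinearIndependent k (fun p : ℕ × ℕ => gen k 0 ^ p.1 * gen k 1 ^ p.2) := by
  have hi : Function.Injective
      (fun p : ℕ × ℕ => (Finsupp.single 0 p.1 + Finsupp.single 1 p.2 : Fin 2 →₀ ℕ)) := by
    intro p q h
    have h0 := DFunLike.congr_fun h 0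
    have h1 := DFunLike.congr_fun h 1
    simp at h0 h1
    exact Prod.ext h0 h1
  have h1 := (MvPolynomial.basisMonomials (Fin 2) k).linearIndependent.comp _ hi
  have h2 := h1.map' (IsScalarTower.toAlgHom k (MvPolynomial (Fin 2) k) (FF k)).toLinearMap
    (LinearMap.ker_eq_bot.2 (IsFractionRing.injective (MvPolynomial (Fin 2) k) (FF k)))
  have e : (fun p : ℕ × ℕ => gen k 0 ^ p.1 * gen k 1 ^ p.2) =
      (IsScalarTower.toAlgHom k (MvPolynomial (Fin 2) k) (FF k)).toLinearMap ∘
        (MvPolynomial.basisMonomials (Fin 2) k) ∘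
          (fun p : ℕ × ℕ => (Finsupp.single 0 p.1 + Finsupp.single 1 p.2 : Fin 2 →₀ ℕ)) := by
    funext p
    simp only [gen, Function.comp, MvPolynomial.coe_basisMonomials, AlgHom.toLinearMap_apply,
      IsScalarTower.coe_toAlgHom', ← map_pow, ← map_mul, MvPolynomial.X_pow_eq_monomial,
      MvPolynomial.monomial_mul, one_mul]
  rw [e]
  exact h2

/-- The images of the generators. -/
noncomputable def repGen (a : FF k) : Fin 2 → Matrix (Fin 3) (Fin 3) (FF k) :=
  ![!![gen k 0, 1, 0; 0, gen k 0, a; 0, 0, gen k 0],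
    !![gen k 1, 0, 0; 0, gen k 1, 1; 0, 0, gen k 1]]

theorem rep_shape (a : FF k) (f : FreeAlgebra k (Fin 2)) :
    ∃ p q r, FreeAlgebra.lift k (repGen a) f =
      !![FreeAlgebra.lift k (gen k) f, p, q; 0, FreeAlgebra.lift k (gen k) f, r;
        0, 0, FreeAlgebra.lift k (gen k) f] := by
  induction f using FreeAlgebra.induction with
  | grade0 t =>
    refine ⟨0, 0, 0, ?_⟩
    rw [AlgHom.commutes, AlgHom.commutes]
    ext i j
    fin_cases i <;> fin_cases j <;> simp [Matrix.algebraMap_matrix_apply]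
  | grade1 i =>
    rw [FreeAlgebra.lift_ι_apply, FreeAlgebra.lift_ι_apply]
    fin_cases i
    · exact ⟨_, _, _, rfl⟩
    · exact ⟨_, _, _, rfl⟩
  | mul f g hf hg =>
    obtain ⟨p, q, r, e⟩ := hf
    obtain ⟨p', q', r', e'⟩ := hg
    rw [map_mul, map_mul, e, e', Matrix.mul_fin_three]
    simp only [mul_zero, zero_mul, add_zero, zero_add]
    exact ⟨_, _, _, rfl⟩
  | add f g hf hg =>
    obtain ⟨p, q, r, e⟩ := hf
    obtain ⟨p', q', r', e'⟩ := hg
    refine ⟨p + p', q + q', r + r', ?_⟩
    rw [map_add, map_add, e, e']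
    ext i j
    fin_cases i <;> fin_cases j <;> simp

/-- The representation with parameter `a`. -/
noncomputable def rep (a : FF k) : RelFree k →ₐ[k] Matrix (Fin 3) (Fin 3) (FF k) :=
  RingQuot.liftAlgHom k ⟨FreeAlgebra.lift k (repGen a), by
    rintro _ _ ⟨f, g, h, rfl, rfl⟩
    obtain ⟨p, q, r, e⟩ := rep_shape a f
    obtain ⟨p', q', r', e'⟩ := rep_shape a g
    obtain ⟨p'', q'', r'', e''⟩ := rep_shape a h
    simp only [map_mul, map_sub]
    rw [e, e', e'']
    ext i j
    fin_cases i <;> fin_cases j <;> simp [Matrix.mul_apply, Fin.sum_univ_three] <;> ring⟩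

variable (k) in
/-- The character. -/
noncomputable def chi : RelFree k →ₐ[k] FF k :=
  RingQuot.liftAlgHom k ⟨FreeAlgebra.lift k (gen k), by
    rintro _ _ ⟨f, g, h, rfl, rfl⟩
    simp only [map_mul, map_sub]
    ring⟩

theorem rep_rq (a : FF k) (f : FreeAlgebra k (Fin 2)) :
    rep a (rq k f) = FreeAlgebra.lift k (repGen a) f :=
  RingQuot.liftAlgHom_mkAlgHom_apply k _ _ f

theorem chi_rq (f : FreeAlgebra k (Fin 2)) : chi k (rq k f) = FreeAlgebra.lift k (gen k) f :=
  RingQuot.liftAlgHom_mkAlgHom_apply k _ _ f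

theorem rep_shape' (a : FF k) (r : RelFree k) :
    ∃ p q s, rep a r = !![chi k r, p, q; 0, chi k r, s; 0, 0, chi k r] := by
  obtain ⟨f, rfl⟩ := rq_surj k r
  rw [rep_rq, chi_rq]
  exact rep_shape a f

theorem rep_rx (a : FF k) : rep a (rx k) = !![gen k 0, 1, 0; 0, gen k 0, a; 0, 0, gen k 0] := by
  rw [rx, rep_rq, FreeAlgebra.lift_ι_apply]; rfl

theorem rep_ry (a : FF k) : rep a (ry k) = !![gen k 1, 0, 0; 0, gen k 1, 1; 0, 0, gen k 1] := by
  rw [ry, rep_rq, FreeAlgebra.lift_ι_apply]; rfl

theorem rep_rc (a : FF k) : rep a (rc k) = !![0, 0, 1; 0, 0, 0; 0, 0, 0] := by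
  rw [rc, map_sub, map_mul, map_mul, rep_rx, rep_ry]
  ext i j
  fin_cases i <;> fin_cases j <;> simp <;> ring

theorem chi_inj {s : RelFree k} (hs : s ∈ ordSpan k) (h : chi k s = 0) : s = 0 := by
  obtain ⟨c, rfl⟩ := (Finsupp.mem_span_range_iff_exists_finsupp).1 hs
  have h1 : Finsupp.linearCombination k
      (fun p : ℕ × ℕ => gen k 0 ^ p.1 * gen k 1 ^ p.2) c = 0 := by
    rw [← h, Finsupp.linearCombination_apply, map_finsuppSum]
    refine Finsupp.sum_congr fun p _ => ?_
    rw [map_smul, mon, map_mul, map_pow, map_pow, rx, ry, chi_rq, chi_rq,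
      FreeAlgebra.lift_ι_apply, FreeAlgebra.lift_ι_apply]
  rw [linearIndependent_iff.1 gen_indep c h1, Finsupp.sum_zero_index]

theorem rep_inj [CharZero k] (a : FF k) : Function.Injective (rep a) := by
  rw [injective_iff_map_eq_zero]
  intro r hr
  obtain ⟨s1, h1, s2, h2, rfl⟩ := normal_form r
  obtain ⟨p, q, s, e⟩ := rep_shape' a s1
  obtain ⟨p', q', s', e'⟩ := rep_shape' a s2
  have h3 : s1 = 0 := by
    apply chi_inj h1
    have := congrFun (congrFun hr 0) 0
    rw [map_add, map_mul, e, e', rep_rc] at this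
    simpa [Matrix.mul_apply, Fin.sum_univ_three] using this
  have h4 : s2 = 0 := by
    apply chi_inj h2
    have := congrFun (congrFun hr 0) 2
    rw [h3, zero_add, map_mul, e', rep_rc] at this
    simpa [Matrix.mul_apply, Fin.sum_univ_three] using this
  rw [h3, h4, zero_mul, add_zero]

theorem rc_ne : rc k ≠ 0 := by
  intro h
  have := congrFun (congrFun (rep_rc (k := k) 0) 0) 2
  rw [h, map_zero] at this
  simp at this

variable (k) in
noncomputable def famU : Fin 4 → RelFree k := ![1, rx k, ry k, rx k * rx k]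

variable (k) in
noncomputable def famV : Fin 4 → RelFree k := ![1, rx k, ry k, rx k * rx k - rc k]

theorem dep_U : ¬ LinearIndependent (FF k) (fun i => rep 0 (famU k i)) := by
  rw [Fintype.not_linearIndependent_iff]
  refine ⟨![gen k 0 ^ 2, -2 * gen k 0, 0, 1], ?_, 3, by simp⟩
  simp only [Fin.sum_univ_four, famU, Matrix.cons_val_zero, Matrix.cons_val_one, Matrix.cons_val,
    map_one, map_mul, rep_rx]
  ext i j
  fin_cases i <;> fin_cases j <;> simp <;> ring

theorem dep_V : ¬ LinearIndependent (FF k) (fun i => rep 1 (famV k i)) := by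
  rw [Fintype.not_linearIndependent_iff]
  refine ⟨![gen k 0 ^ 2, -2 * gen k 0, 0, 1], ?_, 3, by simp⟩
  simp only [Fin.sum_univ_four, famV, Matrix.cons_val_zero, Matrix.cons_val_one, Matrix.cons_val,
    map_one, map_mul, map_sub, rep_rx, rep_rc]
  ext i j
  fin_cases i <;> fin_cases j <;> simp <;> ring

theorem not_both_rel [CharZero k] (F : Type) [Field F] (A : Type) [NonUnitalRing A] [Module F A]
    [IsScalarTower F A A] [SMulCommClass F A A] (φ : RelFree k →ₙ+* A)
    (hφ : Function.Injective φ) :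
    LinearIndependent F (fun i => φ (famU k i)) ∨ LinearIndependent F (fun i => φ (famV k i)) := by
  have hC : φ (rc k) ≠ 0 := fun h => rc_ne (hφ (by rw [h, map_zero]))
  have four : ∀ a0 a1 a2 a3 : F,
      a0 • φ 1 + a1 • φ (rx k) + a2 • φ (ry k) + a3 • φ (rc k) = 0 →
        a0 = 0 ∧ a1 = 0 ∧ a2 = 0 ∧ a3 = 0 := by
    intro a0 a1 a2 a3 h
    have com : ∀ z : RelFree k, a0 • φ (1 * z - z * 1) + a1 • φ (rx k * z - z * rx k)
        + a2 • φ (ry k * z - z * ry k) + a3 • φ (rc k * z - z * rc k) = 0 := by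
      intro z
      have h1 := congrArg (fun w => w * φ z - φ z * w) h
      simp only [add_mul, mul_add, smul_mul_assoc, mul_smul_comm, zero_mul, mul_zero,
        sub_self] at h1
      simp only [map_sub, map_mul, smul_sub]
      rw [← h1]; abel
    have h2 : a2 = 0 := by
      have h1 := com (rx k)
      have e : ry k * rx k - rx k * ry k = -rc k := by unfold rc; abel
      rw [e, rc_comm] at h1
      simp only [one_mul, mul_one, sub_self, map_zero, smul_zero, zero_add, add_zero, map_neg,
        smul_neg, neg_eq_zero] at h1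
      exact (smul_eq_zero.1 h1).resolve_right hC
    have h1 : a1 = 0 := by
      have h1 := com (ry k)
      have e : rx k * ry k - ry k * rx k = rc k := rfl
      rw [e, rc_comm] at h1
      simp only [one_mul, mul_one, sub_self, map_zero, smul_zero, zero_add, add_zero] at h1
      exact (smul_eq_zero.1 h1).resolve_right hC
    rw [h1, h2, zero_smul, zero_smul, add_zero, add_zero] at h
    have h0 : a0 = 0 := by
      have h3 := congrArg (fun w => w * φ (rc k)) h
      simp only [add_mul, smul_mul_assoc, zero_mul, ← map_mul, rc_sq, one_mul, map_zero,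
        smul_zero, add_zero] at h3
      exact (smul_eq_zero.1 h3).resolve_right hC
    rw [h0, zero_smul, zero_add] at h
    exact ⟨h0, h1, h2, (smul_eq_zero.1 h).resolve_right hC⟩
  by_contra hn
  rw [not_or, Fintype.not_linearIndependent_iff, Fintype.not_linearIndependent_iff] at hn
  obtain ⟨⟨g, hg, i, hi⟩, ⟨h, hh, j, hj⟩⟩ := hn
  simp only [Fin.sum_univ_four, famU, famV, Matrix.cons_val_zero, Matrix.cons_val_one,
    Matrix.cons_val, map_sub] at hg hh
  have hg3 : g 3 ≠ 0 := by
    intro h3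
    obtain ⟨e0, e1, e2, -⟩ := four (g 0) (g 1) (g 2) 0 (by
      rw [h3, zero_smul] at hg; rw [zero_smul]; exact hg)
    fin_cases i
    exacts [hi e0, hi e1, hi e2, hi h3]
  have hh3 : h 3 ≠ 0 := by
    intro h3
    obtain ⟨e0, e1, e2, -⟩ := four (h 0) (h 1) (h 2) 0 (by
      rw [h3, zero_smul] at hh; rw [zero_smul]; exact hh)
    fin_cases j
    exacts [hj e0, hj e1, hj e2, hj h3]
  have h5 := four (h 3 * g 0 - g 3 * h 0) (h 3 * g 1 - g 3 * h 1) (h 3 * g 2 - g 3 * h 2)
    (g 3 * h 3) (by
      have e1 := congrArg (fun w => h 3 • w) hg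
      have e2 := congrArg (fun w => g 3 • w) hh
      simp only [smul_zero] at e1 e2
      rw [← sub_zero (0 : A)]
      nth_rewrite 1 [← e1]
      rw [← e2]
      module)
  exact mul_ne_zero hg3 hh3 h5.2.2.2

theorem inj_U [CharZero k] : Function.Injective (famU k) := by
  have h := (not_both_rel (FF k) _ ((rep (k := k) 1).toRingHom.toNonUnitalRingHom)
    (rep_inj 1)).resolve_right dep_V
  intro i j e
  exact h.injective (congrArg _ e)

theorem inj_V [CharZero k] : Function.Injective (famV k) := by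
  have h := (not_both_rel (FF k) _ ((rep (k := k) 0).toRingHom.toNonUnitalRingHom)
    (rep_inj 0)).resolve_left dep_U
  intro i j e
  exact h.injective (congrArg _ e)

end Pool.Agent.P.MP_81db1e_al
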