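import Mathlib

set_option autoImplicit false

namespace Pool.Agent.P.MP_81db1e_al

/-- The relatively free unital `k`-algebra of rank two in the variety defined by the identity
`[[f, g], h] = 0`: the free algebra on two generators modulo all values of this identity. -/
abbrev RelFree (k : Type) [Field k] : Type :=
  RingQuot (fun a b : FreeAlgebra k (Fin 2) =>
    ∃ f g h : FreeAlgebra k (Fin 2), a = (f * g - g * f) * h ∧ b = h * (f * g - g * f))

end Pool.Agent.P.MP_81db1e_al
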