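import Mathlib

set_option autoImplicit false

namespace Pool.Agent.Env81

open Function Submodule

variable {k : Type} [Field k] {R : Type} [Ring R] [Algebra k R]

theorem elim {F' A' : Type} [Field F'] [Ring A'] [Algebra F' A'] {m : ℕ} (e : Fin (m + 1) → F')
    (u v : Fin (m + 1) → A') (y : A') (hu : ∑ t, e t • u t = 0) (hv : ∑ t, e t • v t = 0) :
    ∑ t : Fin m, e t.succ • (u t.succ * y * v 0 - u 0 * y * v t.succ) = 0 := by
  have : ∑ t, e t • (u t * y * v 0 - u 0 * y * v t) =
      (∑ t, e t • u t) * y * v 0 - u 0 * y * ∑ t, e t • v t := by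
    simp [smul_sub, Finset.sum_sub_distrib, Finset.sum_mul, Finset.mul_sum]
  rw [Fin.sum_univ_succ, hu, hv] at this
  simpa using this

theorem regroup {F' A' : Type} [Field F'] [Algebra k F'] [Ring A'] [Algebra F' A'] [Algebra k A']
    [IsScalarTower k F' A'] (φ : R →ₐ[k] A') {ι : Type} [Fintype ι] {p : ℕ} (a : ι → Fin p → k)
    (β : Fin p → F') (r : ι → R) :
    ∑ t, (∑ l, a t l • β l) • φ (r t) = ∑ l, β l • φ (∑ t, a t l • r t) := by
  simp only [Finset.sum_smul, map_sum, map_smul, Finset.smul_sum]
  rw [Finset.sum_comm]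
  refine Finset.sum_congr rfl fun l _ => Finset.sum_congr rfl fun t _ => ?_
  rw [smul_assoc, smul_comm]

theorem descend (F : Type) {F' : Type} [Field F] [Algebra k F] [Field F'] [Algebra k F'] {ι : Type}
    [Fintype ι] (e : ι → F') : ∃ (p : ℕ) (β : Fin p → F') (a : ι → Fin p → k),
      LinearIndependent k β ∧ (∀ t, e t = ∑ l, a t l • β l) ∧
      ∀ μ : Fin p → F, (∀ t, ∑ l, a t l • μ l = 0) → μ = 0 := by
  have : Module.Finite k (span k (Set.range e)) := Module.Finite.span_of_finite k (Set.finite_range e)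
  let b := Module.finBasis k (span k (Set.range e))
  refine ⟨_, fun l => (b l : F'), fun t l => b.repr ⟨e t, subset_span ⟨t, rfl⟩⟩ l,
    b.linearIndependent.map' (span k (Set.range e)).subtype (ker_subtype _), fun t => ?_,
    fun μ hμ => ?_⟩
  · have := congrArg (span k (Set.range e)).subtype (b.sum_repr ⟨e t, subset_span ⟨t, rfl⟩⟩)
    simp only [map_sum, map_smul] at this
    exact this.symm
  · have h0 : ∀ x (hx : x ∈ span k (Set.range e)), b.constr k μ ⟨x, hx⟩ = 0 := by
      intro x hx
      induction hx using span_induction with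
      | mem x hx =>
        obtain ⟨t, rfl⟩ := hx
        rw [Module.Basis.constr_apply_fintype]
        exact hμ t
      | zero => exact map_zero _
      | add x y hx hy a c =>
        have := map_add (b.constr k μ) ⟨x, hx⟩ ⟨y, hy⟩
        rw [a, c, add_zero] at this
        exact this
      | smul c x hx a =>
        have := map_smul (b.constr k μ) c ⟨x, hx⟩
        rw [a, smul_zero] at this
        exact this
    funext l
    have := h0 (b l).1 (b l).2
    simpa using this

variable {F : Type} [Field F] [Algebra k F]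

theorem ent {n : Type} [Fintype n] [DecidableEq n] (ρ : R →ₐ[k] Matrix n n F)
    (hs : span F (Set.range ρ) = ⊤) {a : Matrix n n F} (ha : a ≠ 0) (a' : Matrix n n F) :
    ∃ c : F, ∀ X X' : Matrix n n F, (∀ y, X * ρ y * a = X' * ρ y * a') → X = c • X' := by
  obtain ⟨q, r, h⟩ : ∃ q r, a q r ≠ 0 := by
    by_contra hc
    push Not at hc
    exact ha (Matrix.ext hc)
  refine ⟨a' q r / a q r, fun X X' hX => ?_⟩
  have h' : ∀ Y, X * Y * a = X' * Y * a' := by
    intro Y
    have hY : Y ∈ span F (Set.range ρ) := hs ▸ mem_top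
    induction hY using span_induction with
    | mem x hx => obtain ⟨y, rfl⟩ := hx; exact hX y
    | zero => simp
    | add x y _ _ a c => simp only [mul_add, add_mul, a, c]
    | smul c x _ a => simp only [Matrix.mul_smul, Matrix.smul_mul, a]
  ext i p
  have := congrFun (congrFun (h' (Matrix.single p q 1)) i) r
  simp [Matrix.mul_apply, Matrix.single_apply, ite_and] at this
  rw [Matrix.smul_apply, smul_eq_mul, div_mul_eq_mul_div, eq_div_iff h, this, mul_comm]

theorem prim {n : Type} [Fintype n] [DecidableEq n] (ρ : R →ₐ[k] Matrix n n F)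
    (hs : span F (Set.range ρ) = ⊤) {a X : Matrix n n F} (ha : a ≠ 0)
    (h : ∀ y, X * ρ y * a = 0) : X = 0 := by
  obtain ⟨c, hc⟩ := ent ρ hs ha 0
  simpa using hc X 0 (by simpa using h)

theorem transfer {n : Type} [Fintype n] [DecidableEq n] (ρ : R →ₐ[k] Matrix n n F)
    (hs : span F (Set.range ρ) = ⊤) {F' A' : Type} [Field F'] [Ring A'] [Algebra F' A']
    (φ : R →+* A') (hφ : Injective φ) : ∀ (m : ℕ) (Λ : Type) (x : Fin m → Λ → R)
      (e : Fin m → F'), e ≠ 0 → (∀ l, ∑ t, e t • φ (x t l) = 0) →
      ∃ μ : Fin m → F, μ ≠ 0 ∧ ∀ l, ∑ t, μ t • ρ (x t l) = 0 := by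
  intro m
  induction m with
  | zero => exact fun _ _ e he _ => (he (Subsingleton.elim _ _)).elim
  | succ m ih =>
    intro Λ x e he h
    by_cases h0 : ∀ l, ρ (x 0 l) = 0
    · refine ⟨Fin.cons 1 0, fun c => one_ne_zero (congrFun c 0), fun l => ?_⟩
      simp [Fin.sum_univ_succ, h0]
    · obtain ⟨l0, hl⟩ := not_forall.1 h0
      have he' : (fun t : Fin m => e t.succ) ≠ 0 := by
        intro c
        have c' : ∀ t : Fin m, e t.succ = 0 := congrFun c
        have := h l0
        simp only [Fin.sum_univ_succ, c', zero_smul, Finset.sum_const_zero, add_zero,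
          smul_eq_zero] at this
        rcases this with c0 | c0
        · exact he (funext fun t => Fin.cases c0 c' t)
        · exact hl (by rw [hφ (c0.trans (map_zero φ).symm), map_zero])
      obtain ⟨μ, hμ, hz⟩ := ih (Λ × R)
        (fun t w => x t.succ w.1 * w.2 * x 0 l0 - x 0 w.1 * w.2 * x t.succ l0) _ he' (fun w => by
          simpa using elim e (fun t => φ (x t w.1)) (fun t => φ (x t l0)) (φ w.2) (h _) (h _))
      obtain ⟨c, hc⟩ := ent ρ hs hl (∑ t, μ t • ρ (x t.succ l0))
      refine ⟨Fin.cons (-c) μ, fun c' => hμ (funext fun t => congrFun c' t.succ), fun l => ?_⟩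
      have := hc (∑ t, μ t • ρ (x t.succ l)) (ρ (x 0 l)) fun y => by
        have := hz (l, y)
        simp only [map_sub, map_mul, smul_sub, Finset.sum_sub_distrib, sub_eq_zero] at this
        simpa [Finset.sum_mul, Finset.mul_sum] using this
      simp [Fin.sum_univ_succ, this]

theorem amalg (D A B : Type) [CommRing D] [Field A] [Field B] (f : D →+* A) (g : D →+* B)
    (hf : Injective f) (hg : Injective g) : ∃ (Ω : Type) (_ : Field Ω) (s : A →+* Ω)
      (t : B →+* Ω), ∀ x, s (f x) = t (g x) := by
  let _ := f.toAlgebra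
  let _ := g.toAlgebra
  have := Algebra.TensorProduct.nontrivial_of_algebraMap_injective_of_isDomain D A B hf hg
  obtain ⟨M, hM⟩ := Ideal.exists_maximal (TensorProduct D A B)
  refine ⟨TensorProduct D A B ⧸ M, Ideal.Quotient.field M,
    (Ideal.Quotient.mk M).comp Algebra.TensorProduct.includeLeftRingHom,
    (Ideal.Quotient.mk M).comp
      (Algebra.TensorProduct.includeRight : B →ₐ[D] TensorProduct D A B).toRingHom, fun x => ?_⟩
  exact congrArg (Ideal.Quotient.mk M)
    (RingHom.congr_fun (Algebra.TensorProduct.includeLeftRingHom_comp_algebraMap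
      (R := D) (A := A) (B := B)) x)

theorem alg_mem [IsAlgClosed k] {x : F} (h : IsAlgebraic k x) : ∃ c, x = algebraMap k F c := by
  obtain ⟨c, hc⟩ := minpoly.mem_range_of_degree_eq_one k x
    (IsAlgClosed.degree_eq_one_of_irreducible k (minpoly.irreducible h.isIntegral))
  exact ⟨c, hc.symm⟩

end Pool.Agent.Env81
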