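import Pool.Agent.P.MP_81db1e_al.SpA

set_option autoImplicit false

namespace Pool.Agent.Env81

open Function Submodule

variable {k : Type} [Field k] {R : Type} [Ring R] [Algebra k R] {F : Type} [Field F] [Algebra k F]
  {σ : Type} [Fintype σ] {d : σ → ℕ} (ρ : ∀ j, R →ₐ[k] Matrix (Fin (d j)) (Fin (d j)) F)

/-- the elements that live in one coordinate -/
def Id (i : σ) : Ideal R where
  carrier := {x | ∀ j, j ≠ i → ρ j x = 0}
  add_mem' := fun a b j hj => by rw [map_add, a j hj, b j hj, add_zero]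
  zero_mem' := fun j _ => map_zero _
  smul_mem' := fun c x a j hj => by rw [smul_eq_mul, map_mul, a j hj, mul_zero]

omit [Fintype σ] in
theorem id_two (i : σ) : (Id ρ i).IsTwoSided :=
  ⟨fun {a} b h j hj => by rw [map_mul, h j hj, zero_mul]⟩

def Rat (i : σ) : Prop :=
  ∀ (a a' : R) (c : F), ρ i a' = c • ρ i a → ρ i a ≠ 0 → ∃ c', c = algebraMap k F c'

structure Dec : Prop where
  hs : ∀ j, span F (Set.range (ρ j)) = ⊤
  hi : ∀ x, (∀ j, ρ j x = 0) → x = 0
  hm : ∀ i, ∃ x ∈ Id ρ i, ρ i x ≠ 0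

/-- the product representation -/
def prodRep : R →ₐ[k] (∀ j, Matrix (Fin (d j)) (Fin (d j)) F) := AlgHom.pi ρ

variable {ρ} (h : Dec ρ)
include h

omit [Fintype σ] in
theorem Dec.zero {i : σ} {x : R} (hx : x ∈ Id ρ i) (h0 : ρ i x = 0) : x = 0 :=
  h.hi x fun j => by
    by_cases e : j = i
    · rw [e, h0]
    · exact hx j e

omit [Fintype σ] in
theorem Dec.ann {i : σ} {X : Matrix (Fin (d i)) (Fin (d i)) F}
    (hX : ∀ w ∈ Id ρ i, X * ρ i w = 0) : X = 0 := by
  obtain ⟨x, hx, h0⟩ := h.hm i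
  refine prim (ρ i) (h.hs i) h0 fun y => ?_
  rw [mul_assoc, ← map_mul]
  exact hX _ (Ideal.mul_mem_left _ _ hx)

omit [Fintype σ] in
theorem Dec.inj : Injective (prodRep ρ) :=
  (injective_iff_map_eq_zero _).2 fun x hx => h.hi x fun j => congrFun hx j

omit [Fintype σ] in
theorem Dec.kill {i : σ} (hr : Rat ρ i) {F' A' : Type} [Field F'] [Algebra k F'] [Ring A']
    [Algebra F' A'] [Algebra k A'] [IsScalarTower k F' A'] (φ : R →ₐ[k] A') (hφ : Injective φ) :
    ∀ (m : ℕ) (x : Fin m → R) (β : Fin m → F'), LinearIndependent k β →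
      ∑ t, β t • φ (x t) = 0 → ∀ t, ρ i (x t) = 0 := by
  intro m
  induction m with
  | zero => exact fun _ _ _ _ t => t.elim0
  | succ m ih =>
    intro x β hβ hx
    have hβ' : LinearIndependent k fun t : Fin m => β t.succ := hβ.comp _ (Fin.succ_injective m)
    have hw : ∀ w, ∑ t, β t • φ (x t * w) = 0 := fun w => by
      have := congrArg (· * φ w) hx
      simpa [Finset.sum_mul] using this
    have h0 : ρ i (x 0) = 0 := by
      by_contra h0
      have hz := fun y => ih (fun t => x t.succ * y * x 0 - x 0 * y * x t.succ) _ hβ' (by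
        simpa using elim β (fun t => φ (x t)) (fun t => φ (x t)) (φ y) hx hx)
      have hc : ∀ t : Fin m, ∃ c : k, ρ i (x t.succ) = c • ρ i (x 0) := by
        intro t
        obtain ⟨c, hc⟩ := ent (ρ i) (h.hs i) h0 (ρ i (x t.succ))
        have := hc (ρ i (x t.succ)) (ρ i (x 0)) fun y => by
          simpa [sub_eq_zero] using hz y t
        obtain ⟨c', rfl⟩ := hr _ _ c this h0
        exact ⟨c', by rw [this, algebraMap_smul]⟩
      choose c hc using hc
      refine h0 (h.ann fun w hw' => ?_)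
      have e1 : ∀ t : Fin m, x t.succ * w = c t • (x 0 * w) := fun t => by
        refine sub_eq_zero.1 (h.zero (i := i) (sub_mem (Ideal.mul_mem_left _ _ hw')
          (Submodule.smul_of_tower_mem _ _ (Ideal.mul_mem_left _ _ hw'))) ?_)
        simp [hc]
      have e2 : (∑ t, (Fin.cons 1 c : Fin (m + 1) → k) t • β t) • φ (x 0 * w) = 0 := by
        rw [← hw w, Finset.sum_smul, Fin.sum_univ_succ, Fin.sum_univ_succ]
        simp only [Fin.cons_zero, Fin.cons_succ, one_smul, e1, map_smul, smul_assoc]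
        congr 1
        exact Finset.sum_congr rfl fun t _ => smul_comm _ _ _
      rcases smul_eq_zero.1 e2 with e3 | e3
      · exact (one_ne_zero (Fintype.linearIndependent_iff.1 hβ _ e3 0)).elim
      · rw [← map_mul, hφ (e3.trans (map_zero φ).symm), map_zero]
    intro t
    refine Fin.cases h0 (fun t => h.ann fun w hw' => ?_) t
    have e1 : x 0 * w = 0 := h.zero (Ideal.mul_mem_left _ _ hw') (by rw [map_mul, h0, zero_mul])
    have := hw w
    rw [Fin.sum_univ_succ, e1, map_zero, smul_zero, zero_add] at this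
    rw [← map_mul]
    exact ih _ _ hβ' this t

theorem Dec.fin_of_rat {i : σ} (hr : Rat ρ i) : Module.Finite k (Id ρ i) := by
  let b := Module.Basis.ofVectorSpace k (Id ρ i)
  have hb : LinearIndependent F fun t => prodRep ρ (b t) := by
    refine linearIndependent_iff'.2 fun s g hg t ht => ?_
    obtain ⟨p, β, a, h1, h2, _⟩ := descend F (k := k) (fun t : s => g t)
    rw [← Finset.sum_coe_sort] at hg
    simp only [h2, regroup] at hg
    have h3 : ∀ l, ∑ t : s, a t l • b t = 0 := fun l => by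
      have e := h.kill hr _ h.inj _ _ _ h1 hg l
      have e' : (∑ t : s, a t l • (b t : R)) = ((∑ t : s, a t l • b t : Id ρ i) : R) := by simp
      rw [e'] at e
      exact Subtype.ext (h.zero (Subtype.prop _) e)
    have h4 := fun l => Fintype.linearIndependent_iff.1
      (b.linearIndependent.comp (fun t : s => t.1) Subtype.val_injective) _ (h3 l) ⟨t, ht⟩
    have := h2 ⟨t, ht⟩
    simpa [h4] using this
  have := hb.finite
  exact Module.Finite.of_basis b

omit [Fintype σ] in
theorem Dec.rat_of_fin [IsAlgClosed k] {i : σ} (hf : Module.Finite k (Id ρ i)) : Rat ρ i := by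
  intro a a' c e ha
  have key : ∀ n : ℕ, ∃ X, X ≠ 0 ∧ ∀ j ≤ n, ∃ x ∈ Id ρ i, ρ i x = c ^ j • X := by
    intro n
    induction n with
    | zero =>
      obtain ⟨x, hx, h0⟩ := h.hm i
      exact ⟨_, h0, fun j hj => ⟨x, hx, by simp [Nat.le_zero.1 hj]⟩⟩
    | succ n ih =>
      obtain ⟨X, hX, hj⟩ := ih
      obtain ⟨y, hy⟩ := not_forall.1 fun c => hX (prim (ρ i) (h.hs i) ha c)
      have tw := id_two ρ i
      refine ⟨_, hy, fun j hj' => ?_⟩
      rcases hj'.lt_or_eq with l | rfl
      · obtain ⟨x, hx, e'⟩ := hj j (by omega)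
        exact ⟨x * y * a, Ideal.mul_mem_right _ _ (Ideal.mul_mem_right _ _ hx), by simp [e']⟩
      · obtain ⟨x, hx, e'⟩ := hj n le_rfl
        exact ⟨x * y * a', Ideal.mul_mem_right _ _ (Ideal.mul_mem_right _ _ hx), by
          simp [e', e, smul_smul, pow_succ']⟩
  obtain ⟨X, hX, hj⟩ := key (Module.finrank k (Id ρ i))
  choose x hx e' using fun j : Fin (Module.finrank k (Id ρ i) + 1) => hj j (by omega)
  have hd : ¬ LinearIndependent k fun j => (⟨x j, hx j⟩ : Id ρ i) := fun c => by
    have := c.fintype_card_le_finrank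
    simp at this
  obtain ⟨g, hg, j, hj0⟩ := Fintype.not_linearIndependent_iff.1 hd
  have e1 : (∑ j, g j • c ^ j.1) • X = 0 := by
    have := congrArg (fun z : Id ρ i => ρ i z) hg
    simpa [e', Finset.sum_smul] using this
  refine alg_mem ⟨∑ j, Polynomial.monomial j.1 (g j), fun c0 => hj0 ?_, ?_⟩
  · have := congrArg (fun p => Polynomial.coeff p j.1) c0
    simpa [Polynomial.coeff_monomial, Fin.val_inj] using this
  · simpa [Polynomial.aeval_monomial, Algebra.smul_def] using (smul_eq_zero.1 e1).resolve_right hX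

theorem Dec.envelope (h1 : ∀ i l, ¬ Rat ρ i → ¬ Rat ρ l → i = l) {F' A' : Type} [Field F']
    [Algebra k F'] [Ring A'] [Algebra F' A'] [Algebra k A'] [IsScalarTower k F' A']
    (φ : R →ₐ[k] A') (hφ : Injective φ) {ι : Type} (r : ι → R)
    (hr : ¬ LinearIndependent F' fun i => φ (r i)) :
    ¬ LinearIndependent F fun i => prodRep ρ (r i) := by
  intro hc
  refine hr (linearIndependent_iff'.2 fun s g hg t ht => ?_)
  obtain ⟨p, β, a, h2, h3, h4⟩ := descend F (k := k) (fun t : s => g t)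
  rw [← Finset.sum_coe_sort] at hg
  simp only [h3, regroup] at hg
  by_contra h0
  have hβ : β ≠ 0 := fun c => h0 (by simpa [c] using h3 ⟨t, ht⟩)
  obtain ⟨μ, hμ, h5⟩ : ∃ μ : Fin p → F, μ ≠ 0 ∧ ∀ j, ¬ Rat ρ j →
      ∑ l, μ l • ρ j (∑ t : s, a t l • r t) = 0 := by
    by_cases e : ∃ j, ¬ Rat ρ j
    · obtain ⟨j, hj⟩ := e
      obtain ⟨μ, hμ, h5⟩ := transfer (ρ j) (h.hs j) φ.toRingHom hφ p Unit
        (fun l _ => ∑ t : s, a t l • r t) β hβ fun _ => hg
      exact ⟨μ, hμ, fun j' hj' => by rw [h1 j' j hj' hj]; exact h5 ()⟩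
    · obtain ⟨l, _⟩ := Function.ne_iff.1 hβ
      exact ⟨fun _ => 1, fun c => one_ne_zero (congrFun c l), fun j hj => (e ⟨j, hj⟩).elim⟩
  refine hμ (h4 μ (Fintype.linearIndependent_iff.1
    (hc.comp (fun t : s => t.1) Subtype.val_injective) _ ?_))
  rw [show (∑ t : s, (∑ l, a t l • μ l) • ((fun i => prodRep ρ (r i)) ∘ fun t : s => t.1) t) = _
    from regroup (prodRep ρ) a μ fun t : s => r t]
  funext j
  rw [Finset.sum_apply]
  by_cases e : Rat ρ j
  · exact Finset.sum_eq_zero fun l _ => by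
      rw [Pi.smul_apply, show prodRep ρ _ j = 0 from h.kill e φ hφ _ _ _ h2 hg l, smul_zero]
  · exact h5 j e

theorem Dec.meet (h1 : ∀ i l, ¬ Rat ρ i → ¬ Rat ρ l → i = l) (I J : Ideal R)
    [I.IsTwoSided] (hIJ : I ⊓ J = ⊥) : Module.Finite k I ∨ Module.Finite k J := by
  have key : ∀ I : Ideal R, ¬ Module.Finite k I → ∃ j, ¬ Rat ρ j ∧ ∃ x ∈ I, ρ j x ≠ 0 := by
    intro I hI
    by_contra hc
    push Not at hc
    have := fun j : {j // Rat ρ j} => h.fin_of_rat j.2
    refine hI (Module.Finite.of_injective (LinearMap.pi fun j : {j // Rat ρ j} =>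
      (Algebra.lsmul k k (Id ρ j.1) (A := R)).toLinearMap ∘ₗ I.subtype.restrictScalars k) ?_)
    refine (injective_iff_map_eq_zero _).2 fun x hx => Subtype.ext (h.hi _ fun j => ?_)
    by_cases e : Rat ρ j
    · refine h.ann fun w hw => ?_
      have : x.1 * w = 0 :=
        congrArg Subtype.val (LinearMap.congr_fun (congrFun hx ⟨j, e⟩) ⟨w, hw⟩)
      rw [← map_mul, this, map_zero]
    · exact hc j e _ x.2
  by_contra hc
  rw [not_or] at hc
  obtain ⟨i, hi, x, hx, x0⟩ := key I hc.1
  obtain ⟨l, hl, y, hy, y0⟩ := key J hc.2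
  obtain rfl := h1 i l hi hl
  refine x0 (prim (ρ i) (h.hs i) y0 fun z => ?_)
  have : x * z * y ∈ I ⊓ J :=
    ⟨Ideal.mul_mem_right _ _ (Ideal.mul_mem_right _ _ hx), Ideal.mul_mem_left _ _ hy⟩
  rw [hIJ] at this
  rw [← map_mul, ← map_mul, (Submodule.mem_bot R).1 this, map_zero]

omit [Fintype σ] in
theorem Dec.pair {i : σ} (hr : ¬ Rat ρ i) : ∃ a ∈ Id ρ i, ∃ a' ∈ Id ρ i, ∃ c : F,
    ρ i a' = c • ρ i a ∧ ρ i a ≠ 0 ∧ ∀ c', c ≠ algebraMap k F c' := by
  unfold Rat at hr
  push Not at hr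
  obtain ⟨a, a', c, e, ha, hc⟩ := hr
  obtain ⟨w, hw⟩ := not_forall.1 fun c => ha (h.ann c)
  obtain ⟨hw, h0⟩ := Classical.not_imp.1 hw
  exact ⟨a * w, Ideal.mul_mem_left _ _ hw, a' * w, Ideal.mul_mem_left _ _ hw, c, by simp [e],
    by rwa [map_mul], hc⟩

theorem Dec.dep [IsAlgClosed k] {i l : σ} (hil : i ≠ l) {a a' b b' : R} (ha : a ∈ Id ρ i)
    (ha' : a' ∈ Id ρ i) (hb : b ∈ Id ρ l) (hb' : b' ∈ Id ρ l) {c e : F} (e1 : ρ i a' = c • ρ i a)
    (e2 : ρ l b' = e • ρ l b) (hc : ∀ c', c ≠ algebraMap k F c') (he : ∀ c', e ≠ algebraMap k F c') :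
    ∃ (F' : Type) (_ : Field F') (_ : Algebra k F') (A' : Type) (_ : Ring A') (_ : Algebra F' A')
      (_ : Algebra k A') (_ : IsScalarTower k F' A') (_ : FiniteDimensional F' A')
      (φ : R →ₐ[k] A'), Injective φ ∧
        ¬ LinearIndependent F' fun t => φ (![a + b, a' + b'] t) := by
  classical
  have tr : ∀ c : F, (∀ c', c ≠ algebraMap k F c') → Injective (Polynomial.aeval (R := k) c) :=
    fun c hc => transcendental_iff_injective.1 fun a => (alg_mem a).elim hc
  obtain ⟨Ω, _, s, t, hst⟩ := amalg (Polynomial k) F F (Polynomial.aeval c).toRingHom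
    (Polynomial.aeval e).toRingHom (tr c hc) (tr e he)
  let _ : Algebra k Ω := (s.comp (algebraMap k F)).toAlgebra
  let s' : F →ₐ[k] Ω := { s with commutes' := fun _ => rfl }
  let t' : F →ₐ[k] Ω := { t with
    commutes' := fun x => by
      have := hst (Polynomial.C x)
      simp only [AlgHom.toRingHom_eq_coe, RingHom.coe_coe, Polynomial.aeval_C] at this
      exact this.symm }
  have hx : s' c = t' e := show s c = t e by simpa using hst Polynomial.X
  let u : σ → (F →ₐ[k] Ω) := fun j => if j = i then s' else t'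
  refine ⟨Ω, inferInstance, inferInstance, ∀ j, Matrix (Fin (d j)) (Fin (d j)) Ω, inferInstance,
    inferInstance, inferInstance, inferInstance, inferInstance,
    prodRep fun j => (u j).mapMatrix.comp (ρ j), ?_, fun hl => ?_⟩
  · refine (injective_iff_map_eq_zero _).2 fun x hx => h.hi x fun j => ?_
    ext p q
    have : u j (ρ j x p q) = 0 := congrFun (congrFun (congrFun hx j) p) q
    simpa using this
  · have := Fintype.linearIndependent_iff.1 hl ![s' c, -1] ?_ 1
    · simp at this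
    · funext j
      ext p q
      have : s' c * u j (ρ j (a + b) p q) = u j (ρ j (a' + b') p q) := by
        by_cases f1 : j = i
        · subst f1
          simp [u, e1, hb j hil, hb' j hil]
        · by_cases f2 : j = l
          · subst f2
            simp [u, f1, e2, ha j f1, ha' j f1, hx]
          · simp [ha j f1, ha' j f1, hb j f2, hb' j f2]
      rw [Fin.sum_univ_two]
      show s' c * u j (ρ j (a + b) p q) + (-1) * u j (ρ j (a' + b') p q) = 0
      rw [this]
      ring

omit [Fintype σ] in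
theorem Dec.clash {i l : σ} (hil : i ≠ l) {a a' b b' : R} (hb : b ∈ Id ρ l) (a0 : ρ i a ≠ 0) (b0 : ρ l b ≠ 0)
    {F' A' : Type} [Field F'] [Ring A'] [Algebra F' A'] (φ : R →+* A') (hφ : Injective φ)
    (d1 : ¬ LinearIndependent F' fun t => φ (![a + b, a' + b'] t))
    (d2 : ¬ LinearIndependent F' fun t => φ (![a + b, a' + (b' + b)] t)) : False := by
  have n0 : φ (a + b) ≠ 0 := fun c => a0 (by
    have := congrArg (ρ i) (hφ (c.trans (map_zero φ).symm))
    simpa [hb i hil] using this)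
  have nrm : ∀ z : R, (¬ LinearIndependent F' fun t => φ (![a + b, z] t)) →
      ∃ c : F', φ z = c • φ (a + b) := by
    intro z hz
    have e : (fun t => φ (![a + b, z] t)) = ![φ (a + b), φ z] := by
      funext t; fin_cases t <;> rfl
    rw [e, LinearIndependent.pair_iff' n0] at hz
    push Not at hz
    obtain ⟨c, hc⟩ := hz
    exact ⟨c, hc.symm⟩
  obtain ⟨c, hc⟩ := nrm _ d1
  obtain ⟨e, he⟩ := nrm _ d2
  have orth : ∀ {i l : σ}, i ≠ l → ∀ {x y : R}, x ∈ Id ρ i → y ∈ Id ρ l → x * y = 0 :=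
    fun {i l} hil {x y} hx hy => h.zero (Ideal.mul_mem_left _ _ hy)
      (by rw [map_mul, hx l hil.symm, zero_mul])
  have e3 : φ b = (e - c) • φ (a + b) := by
    rw [sub_smul, ← hc, ← he, ← map_sub]
    congr 1
    abel
  have e4 : e - c = 0 := by
    by_contra h0
    refine a0 (h.ann fun w hw => ?_)
    have := congrArg (· * φ w) e3
    simp only [smul_mul_assoc, ← map_mul, add_mul, orth hil.symm hb hw, map_zero, add_zero] at this
    have := (smul_eq_zero.1 this.symm).resolve_left h0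
    rw [← map_mul, hφ (this.trans (map_zero φ).symm), map_zero]
  rw [e4, zero_smul] at e3
  exact b0 (by rw [hφ (e3.trans (map_zero φ).symm), map_zero])

end Pool.Agent.Env81
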