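import Pool.Agent.P.MP_81db1e_al.SpB

set_option autoImplicit false

namespace Pool.Agent.Env81

open Function Submodule

variable {k : Type} [Field k] {R : Type} [Ring R] [Algebra k R]

theorem dec_min {F : Type} [Field F] [Algebra k F] {n : ℕ} {d : Fin n → ℕ}
    (ρ : ∀ j, R →ₐ[k] Matrix (Fin (d j)) (Fin (d j)) F) (hs : ∀ j, span F (Set.range (ρ j)) = ⊤)
    (hi : ∀ x, (∀ j, ρ j x = 0) → x = 0) :
    ∃ S : Finset (Fin n), Dec (σ := S) (d := fun j => d j.1) fun j => ρ j.1 := by
  classical
  obtain ⟨S, hS, hmin⟩ := (Finset.univ.filter fun S : Finset (Fin n) =>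
    ∀ x, (∀ j ∈ S, ρ j x = 0) → x = 0).exists_min_image Finset.card
    ⟨Finset.univ, by simpa using hi⟩
  simp only [Finset.mem_filter, Finset.mem_univ, true_and] at hS hmin
  refine ⟨S, fun j => hs j.1, fun x hx => hS x fun j hj => hx ⟨j, hj⟩, fun i => ?_⟩
  by_contra hc
  push Not at hc
  have := hmin (S.erase i.1) fun x hx => hS x fun j hj => by
    have h1 : x ∈ Id (σ := S) (d := fun j => d j.1) (fun j => ρ j.1) i := fun j hj =>
      hx j.1 (Finset.mem_erase.2 ⟨fun e => hj (Subtype.ext e), j.2⟩)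
    by_cases e : j = i.1
    · subst e
      exact hc x h1
    · exact hx j (Finset.mem_erase.2 ⟨e, hj⟩)
  have := Finset.card_erase_lt_of_mem i.2
  omega

theorem dec_span (hsp : ∀ a : R, (∀ x, a * x * a = 0) → a = 0) {F B : Type} [Field F]
    [IsAlgClosed F] [Algebra k F] [Ring B] [Algebra F B] [Algebra k B] [IsScalarTower k F B]
    [FiniteDimensional F B] (φ : R →ₐ[k] B) (hφ : Injective φ) (hs : span F (Set.range φ) = ⊤) :
    ∃ (n : ℕ) (d : Fin n → ℕ) (ρ : ∀ j, R →ₐ[k] Matrix (Fin (d j)) (Fin (d j)) F),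
      (∀ j, span F (Set.range (ρ j)) = ⊤) ∧ ∀ x, (∀ j, ρ j x = 0) → x = 0 := by
  have := IsArtinianRing.of_finite F B
  obtain ⟨N, hN⟩ := IsSemiprimaryRing.isNilpotent (R := B)
  have : FiniteDimensional F (B ⧸ Ring.jacobson B) := Module.Finite.of_surjective
    (Ideal.Quotient.mkₐ F (Ring.jacobson B)).toLinearMap Ideal.Quotient.mk_surjective
  obtain ⟨n, d, _, ⟨e⟩⟩ :=
    IsSemisimpleRing.exists_algEquiv_pi_matrix_of_isAlgClosed F (B ⧸ Ring.jacobson B)
  let π : ∀ j, B →ₐ[F] Matrix (Fin (d j)) (Fin (d j)) F := fun j =>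
    (Pi.evalAlgHom F _ j).comp (e.toAlgHom.comp (Ideal.Quotient.mkₐ F _))
  have hπ : ∀ j, Surjective (π j) := fun j =>
    (Function.surjective_eval j).comp (e.surjective.comp Ideal.Quotient.mk_surjective)
  refine ⟨n, d, fun j => ((π j).restrictScalars k).comp φ, fun j => ?_, fun x hx => ?_⟩
  · have := congrArg (Submodule.map (π j).toLinearMap) hs
    rw [map_span, Submodule.map_top, LinearMap.range_eq_top.2 (hπ j), ← Set.range_comp] at this
    exact this
  · have h1 : φ x ∈ Ring.jacobson B := by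
      rw [← Ideal.Quotient.eq_zero_iff_mem]
      exact e.injective ((funext hx).trans (map_zero e).symm)
    have key : ∀ m (a : R), φ a ∈ Ring.jacobson B ^ (N - m + 1) → a = 0 := by
      intro m
      induction m with
      | zero =>
        intro a ha
        have := Ideal.pow_le_pow_right (I := Ring.jacobson B) (show N ≤ N - 0 + 1 by omega) ha
        rw [hN] at this
        exact hφ (((Submodule.mem_bot B).1 this).trans (map_zero φ).symm)
      | succ m ih =>
        intro a ha
        refine hsp a fun y => ih _ ?_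
        have := Ideal.mul_mem_mul (Ideal.mul_mem_right (φ y) _ ha) ha
        rw [← Ideal.IsTwoSided.pow_add] at this
        rw [map_mul, map_mul]
        exact Ideal.pow_le_pow_right (by omega) this
    exact key N x (by rw [Nat.sub_self, zero_add, Submodule.pow_one]; exact h1)

theorem dec_exists (hsp : ∀ a : R, (∀ x, a * x * a = 0) → a = 0) {F A : Type} [Field F]
    [Algebra k F] [Ring A] [Algebra F A] [Algebra k A] [IsScalarTower k F A]
    [FiniteDimensional F A] (φ : R →ₐ[k] A) (hφ : Injective φ) :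
    ∃ (n : ℕ) (d : Fin n → ℕ)
      (ρ : ∀ j, R →ₐ[k] Matrix (Fin (d j)) (Fin (d j)) (AlgebraicClosure F)),
      (∀ j, span (AlgebraicClosure F) (Set.range (ρ j)) = ⊤) ∧ ∀ x, (∀ j, ρ j x = 0) → x = 0 := by
  let G := AlgebraicClosure F
  let ψ : R →ₐ[k] TensorProduct F G A :=
    ((Algebra.TensorProduct.includeRight : A →ₐ[F] TensorProduct F G A).restrictScalars k).comp φ
  have hψ : Injective ψ :=
    (Algebra.TensorProduct.includeRight_injective (algebraMap F G).injective).comp hφ
  let B := Algebra.adjoin G (Set.range ψ)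
  have hB : Subalgebra.toSubmodule B = span G (Set.range ψ) := by
    refine Algebra.adjoin_eq_span_of_subset G fun x hx => subset_span ?_
    exact (Submonoid.closure_le (S := MonoidHom.mrange ψ)).2 subset_rfl hx
  let χ : R →ₐ[k] B :=
    { toFun := fun x => ⟨ψ x, Algebra.subset_adjoin ⟨x, rfl⟩⟩
      map_one' := Subtype.ext (map_one ψ)
      map_mul' := fun x y => Subtype.ext (map_mul ψ x y)
      map_zero' := Subtype.ext (map_zero ψ)
      map_add' := fun x y => Subtype.ext (map_add ψ x y)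
      commutes' := fun c => Subtype.ext (ψ.commutes c) }
  refine dec_span hsp χ (fun x y e => hψ (congrArg Subtype.val e)) ?_
  refine Submodule.map_injective_of_injective (f := B.val.toLinearMap) Subtype.val_injective ?_
  rw [map_span, Submodule.map_top, ← Set.range_comp]
  exact hB.symm.trans (Submodule.range_subtype _).symm

theorem main [IsAlgClosed k] (hsp : ∀ a : R, (∀ x, a * x * a = 0) → a = 0)
    (hrep : ∃ (F : Type) (_ : Field F) (_ : Algebra k F) (A : Type) (_ : Ring A)
      (_ : Algebra F A) (_ : Algebra k A) (_ : IsScalarTower k F A)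
      (_ : FiniteDimensional F A) (φ : R →ₐ[k] A), Function.Injective φ) :
    (∃ (F : Type) (_ : Field F) (_ : Algebra k F) (A : Type) (_ : Ring A)
        (_ : Algebra F A) (_ : Algebra k A) (_ : IsScalarTower k F A)
        (_ : FiniteDimensional F A) (φ : R →ₐ[k] A),
      Function.Injective φ ∧
      ∀ (F' : Type) [Field F'] [Algebra k F'] (A' : Type) [Ring A'] [Algebra F' A']
        [Algebra k A'] [IsScalarTower k F' A'] [FiniteDimensional F' A']
        (φ' : R →ₐ[k] A'), Function.Injective φ' →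
        ∀ (ι : Type) (r : ι → R),
          ¬ LinearIndependent F' (fun i => φ' (r i)) →
          ¬ LinearIndependent F (fun i => φ (r i))) ↔
    ∀ I J : Ideal R, I.IsTwoSided → J.IsTwoSided → I ⊓ J = ⊥ →
      Module.Finite k I ∨ Module.Finite k J := by
  obtain ⟨F0, _, _, A0, _, _, _, _, _, φ0, h0⟩ := hrep
  obtain ⟨n, d, ρ, hs, hi⟩ := dec_exists hsp (F := F0) φ0 h0
  obtain ⟨S, h⟩ := dec_min ρ hs hi
  by_cases h1 : ∀ i l : S, ¬ Rat (σ := S) (d := fun j => d j.1) (fun j => ρ j.1) i →
      ¬ Rat (σ := S) (d := fun j => d j.1) (fun j => ρ j.1) l → i = l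
  · refine iff_of_true ⟨AlgebraicClosure F0, inferInstance, inferInstance, _, inferInstance,
      inferInstance, inferInstance, inferInstance, inferInstance, _, h.inj, ?_⟩
      fun I J _ _ e => h.meet h1 I J e
    intro F' _ _ A' _ _ _ _ _ φ' hφ' ι r hr
    exact h.envelope h1 φ' hφ' r hr
  · push Not at h1
    obtain ⟨i, l, hi', hl', hil⟩ := h1
    refine iff_of_false ?_ fun hc => ?_
    · rintro ⟨F, _, _, A, _, _, _, _, _, φ, hφ, H⟩
      obtain ⟨a, ha, a', ha', c, e1, a0, hc⟩ := h.pair hi'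
      obtain ⟨b, hb, b', hb', e, e2, b0, he⟩ := h.pair hl'
      obtain ⟨F1, _, _, A1, _, _, _, _, _, φ1, i1, d1⟩ := h.dep hil ha ha' hb hb' e1 e2 hc he
      obtain ⟨F2, _, _, A2, _, _, _, _, _, φ2, i2, d2⟩ := h.dep hil ha ha' hb (add_mem hb' hb)
        (e := e + 1) e1 (by rw [map_add, e2, add_smul, one_smul]) hc
        fun c' e' => he (c' - 1) (by rw [map_sub, map_one, ← e']; ring)
      exact h.clash hil hb a0 b0 φ.toRingHom hφ (H F1 A1 φ1 i1 _ _ d1)
        (H F2 A2 φ2 i2 _ _ d2)
    · refine (hc _ _ (id_two _ i) (id_two _ l) ?_).elim (fun f => hi' (h.rat_of_fin f))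
        fun f => hl' (h.rat_of_fin f)
      exact (Submodule.eq_bot_iff _).2 fun x hx => h.zero hx.1 (hx.2 i hil)

end Pool.Agent.Env81
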